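import Pool.Agent.H64.BTL.Stmts

/-!
# Board `btl`, row PAD (helper80): the field `ℂ_p`
-/

set_option autoImplicit false

namespace Pool.BTL

theorem PAD_thm : PADStmt := by
  intro p _
  constructor
  · have h1 : Cardinal.aleph0 < Cardinal.mk ℚ_[p] :=
      lt_of_lt_of_le Cardinal.aleph0_lt_continuum
        (continuum_le_cardinal_of_nontriviallyNormedField ℚ_[p])
    have h2 : Uncountable ℚ_[p] := Cardinal.aleph0_lt_mk_iff.1 h1
    exact (algebraMap ℚ_[p] (PadicAlgCl p)).injective.uncountable
  · refine ⟨PadicComplex p, PadicComplex.nontriviallyNormedField p, inferInstance, inferInstance,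
      algebraMap (PadicAlgCl p) (PadicComplex p), fun x => ?_, fun x => ?_⟩
    · exact PadicComplex.norm_extends p x
    · have h1 : IsIntegral ℚ_[p] x := (PadicAlgCl.isAlgebraic p).isAlgebraic x |>.isIntegral
      exact h1.map (IsScalarTower.toAlgHom ℚ_[p] (PadicAlgCl p) (PadicComplex p))

end Pool.BTL
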